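import Mathlib
import Pool.Agent.R665.MGR.Cls

set_option autoImplicit false

/-! Infinitesimal rigidity of irreducible representations of the mapping class group of a closed
surface of genus `g` of dimension `d`, `2 d < binom (g - 5) 2`. -/

namespace Pool.Agent.Results.MP_65c98c_al.LowDimensionalRigidity

open Pool.Agent.H29R2.MG Pool.Agent.TH35.MG Pool.Agent.R352.MG Pool.Agent.R665.MGR
  Pool.Agent.R665.MGR.Cls Module

universe u

section
variable {g d : ℕ} {K : Type u} [Field K]

/-- `c` is a 1-cocycle of `Mod_g` with values in `ad ρ`, the matrices with the action by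
conjugation -/
def IsCocycle (ρ : Mod g →* Matrix.GeneralLinearGroup (Fin d) K)
    (c : Mod g → Matrix (Fin d) (Fin d) K) : Prop :=
  ∀ x y, c (x * y) = c x + (ρ x : Matrix (Fin d) (Fin d) K) * c y * ((ρ x)⁻¹ : Matrix.GeneralLinearGroup (Fin d) K)

/-- the restriction of `c` to the Humphries group is a coboundary -/
def IsCoboundary (ρ : Mod g →* Matrix.GeneralLinearGroup (Fin d) K)
    (c : Mod g → Matrix (Fin d) (Fin d) K) : Prop :=
  ∃ M : Matrix (Fin d) (Fin d) K, ∀ x ∈ Humphries g,
    c x = (ρ x : Matrix (Fin d) (Fin d) K) * M * ((ρ x)⁻¹ : Matrix.GeneralLinearGroup (Fin d) K) - M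

/-- the block matrix -/
def blk (ρ : Mod g →* Matrix.GeneralLinearGroup (Fin d) K)
    (c : Mod g → Matrix (Fin d) (Fin d) K) (x : Mod g) :
    Matrix (Fin d ⊕ Fin d) (Fin d ⊕ Fin d) K :=
  Matrix.fromBlocks (ρ x : Matrix (Fin d) (Fin d) K) (c x * (ρ x : Matrix (Fin d) (Fin d) K)) 0
    (ρ x : Matrix (Fin d) (Fin d) K)

theorem blk_one {ρ : Mod g →* Matrix.GeneralLinearGroup (Fin d) K}
    {c : Mod g → Matrix (Fin d) (Fin d) K} (hc : IsCocycle ρ c) : blk ρ c 1 = 1 := by
  have h := hc 1 1
  rw [mul_one, map_one, inv_one, Units.val_one, one_mul, mul_one] at h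
  have h0 : c 1 = 0 := by
    have := left_eq_add.1 h
    exact this
  unfold blk
  rw [h0, map_one, zero_mul, Units.val_one, Matrix.fromBlocks_one]

theorem blk_mul {ρ : Mod g →* Matrix.GeneralLinearGroup (Fin d) K}
    {c : Mod g → Matrix (Fin d) (Fin d) K} (hc : IsCocycle ρ c) (x y : Mod g) :
    blk ρ c (x * y) = blk ρ c x * blk ρ c y := by
  unfold blk
  rw [Matrix.fromBlocks_multiply, hc x y, map_mul, Units.val_mul]
  simp only [mul_zero, zero_mul, add_zero, zero_add]
  congr 1
  have h1 : ((ρ x)⁻¹ : Matrix.GeneralLinearGroup (Fin d) K).1 * (ρ x).1 = 1 := Units.inv_mul _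
  calc (c x + (ρ x).1 * c y * ((ρ x)⁻¹ : Matrix.GeneralLinearGroup (Fin d) K).1) *
        ((ρ x).1 * (ρ y).1)
      = c x * (ρ x).1 * (ρ y).1 + (ρ x).1 * c y *
        (((ρ x)⁻¹ : Matrix.GeneralLinearGroup (Fin d) K).1 * (ρ x).1) * (ρ y).1 := by
          noncomm_ring
    _ = (ρ x).1 * (c y * (ρ y).1) + c x * (ρ x).1 * (ρ y).1 := by
        rw [h1, mul_one, add_comm, mul_assoc]

/-- the extension as a representation -/
noncomputable def ext {ρ : Mod g →* Matrix.GeneralLinearGroup (Fin d) K}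
    {c : Mod g → Matrix (Fin d) (Fin d) K} (hc : IsCocycle ρ c) :
    Mod g →* Matrix.GeneralLinearGroup (Fin (d + d)) K :=
  MonoidHom.toHomUnits
    { toFun := fun x => Matrix.reindexAlgEquiv K K finSumFinEquiv (blk ρ c x)
      map_one' := by rw [blk_one hc, map_one]
      map_mul' := fun x y => by rw [blk_mul hc, map_mul] }

/-- the first block of a vector -/
def top (d : ℕ) (K : Type u) [Field K] : (Fin (d + d) → K) →ₗ[K] (Fin d → K) :=
  LinearMap.funLeft K K (fun i : Fin d => finSumFinEquiv (Sum.inl i))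

/-- the second block of a vector -/
def bot (d : ℕ) (K : Type u) [Field K] : (Fin (d + d) → K) →ₗ[K] (Fin d → K) :=
  LinearMap.funLeft K K (fun i : Fin d => finSumFinEquiv (Sum.inr i))

theorem act_ext {ρ : Mod g →* Matrix.GeneralLinearGroup (Fin d) K}
    {c : Mod g → Matrix (Fin d) (Fin d) K} (hc : IsCocycle ρ c) (x : Mod g)
    (v : Fin (d + d) → K) :
    top d K (act (ext hc) x v) = act ρ x (top d K v) +
      (c x * (ρ x : Matrix (Fin d) (Fin d) K)).mulVec (bot d K v) ∧
    bot d K (act (ext hc) x v) = act ρ x (bot d K v) := by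
  have h1 : act (ext hc) x v = ((blk ρ c x).mulVec (v ∘ finSumFinEquiv)) ∘ finSumFinEquiv.symm := by
    show (Matrix.reindexAlgEquiv K K finSumFinEquiv (blk ρ c x)).mulVec v = _
    rw [Matrix.reindexAlgEquiv_apply, Matrix.reindex_apply, Matrix.submatrix_mulVec_equiv]
    rfl
  have h2 : (blk ρ c x).mulVec (v ∘ finSumFinEquiv) =
      Sum.elim (act ρ x (top d K v) +
        (c x * (ρ x : Matrix (Fin d) (Fin d) K)).mulVec (bot d K v)) (act ρ x (bot d K v)) := by
    unfold blk
    rw [Matrix.fromBlocks_mulVec, Matrix.zero_mulVec, zero_add]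
    rfl
  rw [h1, h2]
  refine ⟨?_, ?_⟩
  · funext i
    show (Sum.elim _ _ : Fin d ⊕ Fin d → K) (finSumFinEquiv.symm (finSumFinEquiv (Sum.inl i))) = _
    rw [Equiv.symm_apply_apply]
    rfl
  · funext i
    show (Sum.elim _ _ : Fin d ⊕ Fin d → K) (finSumFinEquiv.symm (finSumFinEquiv (Sum.inr i))) = _
    rw [Equiv.symm_apply_apply]
    rfl

theorem vec_zero {v : Fin (d + d) → K} (h1 : top d K v = 0) (h2 : bot d K v = 0) : v = 0 := by
  funext k
  obtain ⟨s, rfl⟩ := finSumFinEquiv.surjective k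
  rcases s with i | i
  · exact congrFun h1 i
  · exact congrFun h2 i

end

theorem dims {g d : ℕ} {K : Type u} [Field K] (hd : d < (g - 5).choose 2)
    (ρ : Mod g →* Matrix.GeneralLinearGroup (Fin d) K)
    (hirr : ∀ W : Submodule K (Fin d → K), Invariant ρ W → W = ⊥ ∨ W = ⊤)
    (hnt : ∃ x ∈ Humphries g, ρ x ≠ 1) : d = g + g := by
  have hib : Invariant ρ (⊥ : Submodule K (Fin d → K)) := by
    intro x _ v hv
    rw [Submodule.mem_bot] at hv ⊢
    rw [hv, ← rho_apply, map_zero]
  have hit : Invariant ρ (⊤ : Submodule K (Fin d → K)) := fun x _ v _ => Submodule.mem_top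
  have htriv : ¬ ∀ x ∈ Humphries g, ∀ v, rho ρ x v = v := by
    intro h
    obtain ⟨x, hx, hne⟩ := hnt
    apply hne
    apply Units.ext
    apply (Matrix.toLinAlgEquiv' (R := K) (n := Fin d)).injective
    rw [← rho_def, Units.val_one, map_one]
    apply LinearMap.ext
    intro v
    exact h x hx v
  have hbt : (⊥ : Submodule K (Fin d → K)) < ⊤ := by
    refine lt_of_le_of_ne bot_le fun h => htriv ?_
    intro x _ v
    have hv : v ∈ (⊥ : Submodule K (Fin d → K)) := h ▸ Submodule.mem_top
    rw [Submodule.mem_bot] at hv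
    rw [hv, map_zero]
  rcases classify hd ρ ⊥ ⊤ ⟨hib, hit, hbt, fun W hW _ _ => hirr W hW⟩ with
    h | ⟨u, -, hsp, hli, -⟩
  · exfalso
    apply htriv
    intro x hx v
    have h1 := h x hx v Submodule.mem_top
    rw [Submodule.mem_bot, sub_eq_zero, ← rho_apply] at h1
    exact h1
  · have hlin : LinearIndependent K u := by
      rw [Fintype.linearIndependent_iff]
      intro a ha i
      exact congrFun (hli a (by rw [ha]; exact Submodule.zero_mem _)) i
    have h2 := hlin.fintype_card_le_finrank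
    have h3 : finrank K (Submodule.span K (Set.range u)) ≤ Fintype.card (Fin g ⊕ Fin g) :=
      finrank_range_le_card u
    rw [bot_sup_eq, top_le_iff] at hsp
    rw [hsp, finrank_top] at h3
    simp only [Module.finrank_fin_fun, Fintype.card_sum, Fintype.card_fin] at h2 h3
    omega

theorem rigid (g d : ℕ) (hd : 2 * d < (g - 5).choose 2) (K : Type u) [Field K]
    (ρ : Mod g →* Matrix.GeneralLinearGroup (Fin d) K)
    (hirr : ∀ W : Submodule K (Fin d → K), Invariant ρ W → W = ⊥ ∨ W = ⊤)
    (hnt : ∃ x ∈ Humphries g, ρ x ≠ 1)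
    (c : Mod g → Matrix (Fin d) (Fin d) K) (hc : IsCocycle ρ c) : IsCoboundary ρ c := by
  have hd1 : d < (g - 5).choose 2 := by omega
  have hd2 : d + d < (g - 5).choose 2 := by omega
  have hg := seven_le hd1
  obtain ⟨T, hT⟩ := twist_exists_at (g := g) (m := 1) (by omega) (by omega)
  set f := ext hc with hf
  -- no invariants in `V`
  have hVρ : Vinv (2 * g) (fun j => rho ρ (tt g j) - 1) (rho ρ T - 1) = ⊥ := by
    rcases hirr (Vinv (2 * g) (fun j => rho ρ (tt g j) - 1) (rho ρ T - 1)) (by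
      intro x hx v hv
      rw [← rho_apply, fix_Vinv hg ρ hT x hx v hv]
      exact hv) with h | h
    · exact h
    · exfalso
      obtain ⟨x, hx, hne⟩ := hnt
      apply hne
      apply Units.ext
      apply (Matrix.toLinAlgEquiv' (R := K) (n := Fin d)).injective
      rw [← rho_def, Units.val_one, map_one]
      apply LinearMap.ext
      intro v
      exact fix_Vinv hg ρ hT x hx v (h ▸ Submodule.mem_top)
  have hbotN : ∀ (x : Mod g) (v : Fin (d + d) → K),
      bot d K ((rho f x - 1) v) = (rho ρ x - 1) (bot d K v) := by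
    intro x v
    rw [LinearMap.sub_apply, LinearMap.sub_apply, Module.End.one_apply, Module.End.one_apply,
      map_sub, rho_apply, rho_apply, (act_ext hc x v).2]
  have htopN : ∀ (x : Mod g) (v : Fin (d + d) → K), bot d K v = 0 →
      top d K ((rho f x - 1) v) = (rho ρ x - 1) (top d K v) := by
    intro x v hv
    rw [LinearMap.sub_apply, LinearMap.sub_apply, Module.End.one_apply, Module.End.one_apply,
      map_sub, rho_apply, rho_apply, (act_ext hc x v).1, hv, Matrix.mulVec_zero, add_zero]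
  have hVf : Vinv (2 * g) (fun j => rho f (tt g j) - 1) (rho f T - 1) = ⊥ := by
    rw [eq_bot_iff]
    intro v hv
    obtain ⟨h1, h2⟩ := mem_Vinv.1 hv
    have hb : bot d K v = 0 := by
      have : bot d K v ∈ Vinv (2 * g) (fun j => rho ρ (tt g j) - 1) (rho ρ T - 1) := by
        rw [mem_Vinv]
        refine ⟨fun j hj => ?_, ?_⟩
        · rw [← hbotN, h1 j hj, map_zero]
        · rw [← hbotN, h2, map_zero]
      rwa [hVρ, Submodule.mem_bot] at this
    have ht : top d K v = 0 := by
      have : top d K v ∈ Vinv (2 * g) (fun j => rho ρ (tt g j) - 1) (rho ρ T - 1) := by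
        rw [mem_Vinv]
        refine ⟨fun j hj => ?_, ?_⟩
        · rw [← htopN _ _ hb, h1 j hj, map_zero]
        · rw [← htopN _ _ hb, h2, map_zero]
      rwa [hVρ, Submodule.mem_bot] at this
    exact (Submodule.mem_bot K).2 (vec_zero ht hb)
  -- the constituent
  have hib : Invariant ρ (⊥ : Submodule K (Fin d → K)) := by
    intro x _ v hv
    rw [Submodule.mem_bot] at hv ⊢
    rw [hv, ← rho_apply, map_zero]
  have hit : Invariant ρ (⊤ : Submodule K (Fin d → K)) := fun x _ v _ => Submodule.mem_top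
  have htriv : ¬ ∀ x ∈ Humphries g, ∀ v, rho ρ x v = v := by
    intro h
    obtain ⟨x, hx, hne⟩ := hnt
    apply hne
    apply Units.ext
    apply (Matrix.toLinAlgEquiv' (R := K) (n := Fin d)).injective
    rw [← rho_def, Units.val_one, map_one]
    apply LinearMap.ext
    intro v
    exact h x hx v
  have hbt : (⊥ : Submodule K (Fin d → K)) < ⊤ := by
    refine lt_of_le_of_ne bot_le fun h => htriv ?_
    intro x _ v
    have hv : v ∈ (⊥ : Submodule K (Fin d → K)) := h ▸ Submodule.mem_top
    rw [Submodule.mem_bot] at hv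
    rw [hv, map_zero]
  have hdim : g + g ≤ d := by
    rcases classify hd1 ρ ⊥ ⊤ ⟨hib, hit, hbt, fun W hW _ _ => hirr W hW⟩ with
      h | ⟨u, -, -, hli, -⟩
    · exfalso
      apply htriv
      intro x hx v
      have h1 := h x hx v Submodule.mem_top
      rw [Submodule.mem_bot, sub_eq_zero, ← rho_apply] at h1
      exact h1
    · have hlin : LinearIndependent K u := by
        rw [Fintype.linearIndependent_iff]
        intro a ha i
        exact congrFun (hli a (by rw [ha]; exact Submodule.zero_mem _)) i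
      have h2 := hlin.fintype_card_le_finrank
      simpa using h2
  have hI : Irr (2 * g) (fun j => rho ρ (tt g j) - 1) (rho ρ T - 1) ⊥ ⊤ :=
    ⟨inv_to ρ hT hib, inv_to ρ hT hit, hbt, fun W hW _ _ => hirr W (inv_of hd1 ρ hT hW)⟩
  have hr1 := rel hd1 ρ hT
  have hr2 := rel hd2 f hT
  obtain ⟨u0, -, hu0⟩ := exists_u hr1 (by omega) hI (by
    intro v _ h1 h2
    rw [← hVρ, mem_Vinv]
    exact ⟨fun j hj => (Submodule.mem_bot K).1 (h1 j hj), (Submodule.mem_bot K).1 h2⟩)
  -- the lift
  obtain ⟨v0, hv0⟩ : ∃ v0 : Fin (d + d) → K, bot d K v0 = u0 := by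
    refine ⟨fun k => (Sum.elim (0 : Fin d → K) u0 : Fin d ⊕ Fin d → K) (finSumFinEquiv.symm k), ?_⟩
    funext i
    show (Sum.elim (0 : Fin d → K) u0 : Fin d ⊕ Fin d → K)
      (finSumFinEquiv.symm (finSumFinEquiv (Sum.inr i))) = _
    rw [Equiv.symm_apply_apply]
    rfl
  obtain ⟨y, hy, hyb⟩ : ∃ y ∈ Vim (2 * g) (fun j => rho f (tt g j) - 1) (rho f T - 1),
      bot d K y = - (rho ρ (tt g 1) - 1) ((rho ρ (tt g 0) - 1) u0) := by
    refine ⟨- (rho f (tt g 1) - 1) ((rho f (tt g 0) - 1) v0), ?_, ?_⟩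
    · exact Submodule.neg_mem _ (N_mem_Vim (N := fun j => rho f (tt g j) - 1)
        (E := rho f T - 1) (j := 1) (by omega) _)
    · rw [map_neg, hbotN, hbotN, hv0]
  have r := rrel hr2 (by omega) hy
  have hinvf : Invariant f (Vinv (2 * g) (fun j => rho f (tt g j) - 1) (rho f T - 1)) := by
    intro x hx v hv
    rw [← rho_apply, fix_Vinv hg f hT x hx v hv]
    exact hv
  have heq := equiv_all hd2 f hT hinvf r
  set w := ww (fun j => rho f (tt g j) - 1) y with hw
  set S := Submodule.span K (Set.range (ub g w)) with hS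
  have hubS : ∀ k, ub g w k ∈ S := fun k => Submodule.subset_span ⟨k, rfl⟩
  have hSinv : ∀ x ∈ Humphries g, ∀ v ∈ S, act f x v ∈ S := by
    intro x hx v hv
    obtain ⟨φ, -, h1⟩ := heq x hx
    have hle : S ≤ S.comap (rho f x) := by
      refine Submodule.span_le.2 ?_
      rintro a ⟨k, rfl⟩
      have h2 := h1 (gen k)
      rw [hVf, Submodule.mem_bot, sub_eq_zero, comb_gen] at h2
      show rho f x (ub g w k) ∈ S
      rw [h2]
      exact Submodule.sum_mem _ fun i _ => Submodule.smul_mem _ _ (hubS i)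
    rw [← rho_apply]
    exact hle hv
  have hmap : S.map (bot d K) = ⊤ := by
    rcases hirr (S.map (bot d K)) (by
      rintro x hx _ ⟨v, hv, rfl⟩
      exact ⟨act f x v, hSinv x hx v hv, (act_ext hc x v).2⟩) with h | h
    · exfalso
      have h1 : bot d K (ub g w (Sum.inl ⟨0, by omega⟩)) ∈ S.map (bot d K) :=
        ⟨_, hubS _, rfl⟩
      have h2 : ub g w (Sum.inl ⟨0, by omega⟩) = (rho f (tt g 0) - 1) y := rfl
      rw [h, Submodule.mem_bot, h2, hbotN, hyb] at h1
      have h3 := X_inv hr1 (by omega) (j := 0) (by omega) u0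
      rw [hVρ, Submodule.mem_bot] at h3
      apply hu0
      rw [Submodule.mem_bot]
      have h4 : (rho ρ (tt g 0) - 1)
          (- (rho ρ (tt g 1) - 1) ((rho ρ (tt g 0) - 1) u0)) =
          - (rho ρ (tt g 0) - 1) ((rho ρ (tt g 1) - 1) ((rho ρ (tt g 0) - 1) u0)) := by
        rw [map_neg]
      rw [h4, neg_eq_zero] at h1
      have h5 : (rho ρ (tt g 0) - 1) u0 + (rho ρ (tt g 0) - 1)
          ((rho ρ (tt g 1) - 1) ((rho ρ (tt g 0) - 1) u0)) = 0 := h3
      rw [h1, add_zero] at h5
      exact h5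
    · exact h
  -- the section
  set F : S →ₗ[K] (Fin d → K) := (bot d K).domRestrict S with hF
  have hsurj : Function.Surjective F := by
    intro v
    have hv : v ∈ S.map (bot d K) := hmap ▸ Submodule.mem_top
    obtain ⟨a, ha, rfl⟩ := hv
    exact ⟨⟨a, ha⟩, rfl⟩
  have hinj : Function.Injective F := by
    have h1 := LinearMap.finrank_range_add_finrank_ker F
    rw [LinearMap.range_eq_top.2 hsurj, finrank_top, Module.finrank_fin_fun] at h1
    have h2 : finrank K S ≤ Fintype.card (Fin g ⊕ Fin g) := finrank_range_le_card (ub g w)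
    rw [Fintype.card_sum, Fintype.card_fin] at h2
    rw [← LinearMap.ker_eq_bot]
    apply Submodule.finrank_eq_zero.1
    omega
  set e := LinearEquiv.ofBijective F ⟨hinj, hsurj⟩ with he
  set s : (Fin d → K) →ₗ[K] (Fin (d + d) → K) := S.subtype.comp e.symm.toLinearMap with hs
  have hs1 : ∀ v, s v ∈ S := fun v => (e.symm v).2
  have hs2 : ∀ v, bot d K (s v) = v := fun v => e.apply_symm_apply v
  have huniq : ∀ a ∈ S, a = s (bot d K a) := by
    intro a ha
    have h1 : F ⟨a, ha⟩ = F (e.symm (bot d K a)) := (hs2 (bot d K a)).symm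
    exact congrArg Subtype.val (hinj h1)
  set A := LinearMap.toMatrix' ((top d K).comp s) with hA
  have hAv : ∀ v, A.mulVec v = top d K (s v) := by
    intro v
    rw [hA, ← Matrix.toLin'_apply, Matrix.toLin'_toMatrix']
    rfl
  refine ⟨-A, ?_⟩
  intro x hx
  have hm : (ρ x : Matrix (Fin d) (Fin d) K) * A + c x * (ρ x : Matrix (Fin d) (Fin d) K) =
      A * (ρ x : Matrix (Fin d) (Fin d) K) := by
    apply Matrix.mulVec_injective
    funext v
    have h1 := act_ext hc x (s v)
    have h2 := huniq _ (hSinv x hx _ (hs1 v))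
    rw [h1.2, hs2] at h2
    have h3 := h1.1
    rw [h2, hs2] at h3
    rw [Matrix.add_mulVec, ← Matrix.mulVec_mulVec, ← Matrix.mulVec_mulVec _ A, hAv, hAv]
    exact h3.symm
  have hu1 : (ρ x).1 * ((ρ x)⁻¹ : Matrix.GeneralLinearGroup (Fin d) K).1 = 1 := Units.mul_inv _
  have e1 : c x = (A * (ρ x).1 - (ρ x).1 * A) *
      ((ρ x)⁻¹ : Matrix.GeneralLinearGroup (Fin d) K).1 := by
    rw [← hm, add_sub_cancel_left, mul_assoc, hu1, mul_one]
  rw [e1, sub_mul, mul_assoc, hu1, mul_one]
  noncomm_ring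

/-- Let `g ≥ 18` and let `ρ` be a representation of the mapping class group `Mod_g` of dimension
less than `binom (g - 5) 2` over a field `K` whose restriction to the group generated by
Humphries' twists is irreducible and nontrivial.  Then the restriction of every 1-cocycle with
values in `ad ρ` to this group is a coboundary. -/
theorem result (g d : ℕ) (hg : 18 ≤ g) (hd : d < (g - 5).choose 2) (K : Type u) [Field K]
    (ρ : Mod g →* Matrix.GeneralLinearGroup (Fin d) K)
    (hirr : ∀ W : Submodule K (Fin d → K), Invariant ρ W → W = ⊥ ∨ W = ⊤)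
    (hnt : ∃ x ∈ Humphries g, ρ x ≠ 1)
    (c : Mod g → Matrix (Fin d) (Fin d) K) (hc : IsCocycle ρ c) : IsCoboundary ρ c := by
  have h1 := dims hd ρ hirr hnt
  refine rigid g d ?_ K ρ hirr hnt c hc
  rw [h1, Nat.choose_two_right]
  obtain ⟨m, rfl⟩ : ∃ m, g = m + 18 := ⟨g - 18, by omega⟩
  have e1 : m + 18 - 5 = m + 13 := by omega
  have e2 : m + 13 - 1 = m + 12 := by omega
  rw [e1, e2]
  have h2 : (2 * (m + 18 + (m + 18)) + 1) * 2 ≤ (m + 13) * (m + 12) := by nlinarith
  have h3 := (Nat.le_div_iff_mul_le (by norm_num)).2 h2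
  omega

end Pool.Agent.Results.MP_65c98c_al.LowDimensionalRigidity
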